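import Mathlib

/-!
# The c.e. Turing degrees

The upper semilattice `R` of the c.e. Turing degrees, on top of Mathlib's Turing reducibility.
-/

set_option autoImplicit false

open Order Computability

namespace Pool.Agent.IDL28

/-- The c.e. sets of natural numbers. -/
structure CESet : Type where
  /-- the set -/
  carrier : Set ℕ
  re : REPred (fun n => n ∈ carrier)

/-- The characteristic function of a set, as a (total) function `ℕ →. ℕ`. -/
noncomputable def chi (A : Set ℕ) : ℕ →. ℕ :=
  fun n => haveI := Classical.dec (n ∈ A); Part.some (if n ∈ A then 1 else 0)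

lemma chi_pos {A : Set ℕ} {n : ℕ} (h : n ∈ A) : chi A n = Part.some 1 := by
  unfold chi; rw [if_pos h]

lemma chi_neg {A : Set ℕ} {n : ℕ} (h : n ∉ A) : chi A n = Part.some 0 := by
  unfold chi; rw [if_neg h]

lemma chi_congr {A B : Set ℕ} {n m : ℕ} (h : n ∈ A ↔ m ∈ B) : chi A n = chi B m := by
  by_cases hn : n ∈ A
  · rw [chi_pos hn, chi_pos (h.mp hn)]
  · rw [chi_neg hn, chi_neg (fun h' => hn (h.mpr h'))]

lemma chi_exists (A : Set ℕ) (n : ℕ) : ∃ v : ℕ, chi A n = Part.some v := by
  by_cases hn : n ∈ A
  · exact ⟨1, chi_pos hn⟩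
  · exact ⟨0, chi_neg hn⟩

lemma assert_congr {p q : Prop} (h : p ↔ q) :
    (Part.assert p fun _ => Part.some ()) = Part.assert q fun _ => Part.some () := by
  rw [propext h]

/-- Turing reducibility of c.e. sets. -/
instance : Preorder CESet where
  le A B := TuringReducible (chi A.carrier) (chi B.carrier)
  le_refl A := TuringReducible.refl _
  le_trans _ _ _ h h' := h.trans h'

/-- The c.e. Turing degrees. -/
abbrev R : Type := Antisymmetrization CESet (· ≤ ·)

/-- The join `A ⊕ B = {2n : n ∈ A} ∪ {2n+1 : n ∈ B}`. -/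
def oplus (A B : Set ℕ) : Set ℕ := {m | (m % 2 = 0 ∧ m / 2 ∈ A) ∨ (m % 2 = 1 ∧ m / 2 ∈ B)}

lemma two_mul_mem_oplus {A B : Set ℕ} {n : ℕ} : 2 * n ∈ oplus A B ↔ n ∈ A := by
  simp [oplus]

lemma two_mul_add_one_mem_oplus {A B : Set ℕ} {n : ℕ} : 2 * n + 1 ∈ oplus A B ↔ n ∈ B := by
  have h1 : (2 * n + 1) % 2 = 1 := by omega
  have h2 : (2 * n + 1) / 2 = n := by omega
  simp [oplus, h1, h2]

lemma re_half {A : Set ℕ} (hA : REPred (fun n => n ∈ A)) : REPred (fun m => m / 2 ∈ A) := by
  have hc : Computable (fun m : ℕ => m / 2) :=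
    (Primrec.nat_div.comp Primrec.id (Primrec.const 2)).to_comp
  exact Partrec.comp (f := fun n : ℕ => Part.assert (n ∈ A) fun _ => Part.some ()) hA hc

lemma re_oplus {A B : Set ℕ} (hA : REPred (fun n => n ∈ A)) (hB : REPred (fun n => n ∈ B)) :
    REPred (fun m => m ∈ oplus A B) := by
  have hc : Computable (fun m : ℕ => decide (m % 2 = 0)) :=
    (PrimrecPred.decide
      (Primrec.eq.comp (Primrec.nat_mod.comp Primrec.id (Primrec.const 2)) (Primrec.const 0))).to_comp
  have h := Partrec.cond hc (re_half hA) (re_half hB)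
  refine h.of_eq fun m => ?_
  rcases Nat.mod_two_eq_zero_or_one m with h0 | h1
  · have e : (m / 2 ∈ A) ↔ (m ∈ oplus A B) := by simp [oplus, h0]
    rw [show decide (m % 2 = 0) = true by simp [h0]]
    exact assert_congr e
  · have e : (m / 2 ∈ B) ↔ (m ∈ oplus A B) := by simp [oplus, h1]
    rw [show decide (m % 2 = 0) = false by simp [h1]]
    exact assert_congr e

/-- The join of c.e. sets. -/
def join (A B : CESet) : CESet := ⟨oplus A.carrier B.carrier, re_oplus A.re B.re⟩

lemma le_join_left (A B : CESet) : A ≤ join A B := by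
  show TuringReducible (chi A.carrier) (chi (oplus A.carrier B.carrier))
  rw [TuringReducible, RecursiveIn.iff_nat]
  have h2 : Nat.RecursiveIn {chi (oplus A.carrier B.carrier)} (fun n : ℕ => ((2 * n : ℕ) : Part ℕ)) :=
    Nat.Primrec.recursiveIn (Primrec.nat_iff.mp
      (Primrec.nat_mul.comp (Primrec.const 2) Primrec.id))
  refine (Nat.RecursiveIn.comp (Nat.RecursiveIn.oracle (chi (oplus A.carrier B.carrier))
    (Set.mem_singleton _)) h2).of_eq fun n => ?_
  refine (Part.bind_some (2 * n) (chi (oplus A.carrier B.carrier))).trans ?_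
  exact chi_congr two_mul_mem_oplus

lemma le_join_right (A B : CESet) : B ≤ join A B := by
  show TuringReducible (chi B.carrier) (chi (oplus A.carrier B.carrier))
  rw [TuringReducible, RecursiveIn.iff_nat]
  have h2 : Nat.RecursiveIn {chi (oplus A.carrier B.carrier)} (fun n : ℕ => ((2 * n + 1 : ℕ) : Part ℕ)) :=
    Nat.Primrec.recursiveIn (Primrec.nat_iff.mp
      (Primrec.succ.comp (Primrec.nat_mul.comp (Primrec.const 2) Primrec.id)))
  refine (Nat.RecursiveIn.comp (Nat.RecursiveIn.oracle (chi (oplus A.carrier B.carrier))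
    (Set.mem_singleton _)) h2).of_eq fun n => ?_
  refine (Part.bind_some (2 * n + 1) (chi (oplus A.carrier B.carrier))).trans ?_
  exact chi_congr two_mul_add_one_mem_oplus

lemma join_le {A B C : CESet} (hA : A ≤ C) (hB : B ≤ C) : join A B ≤ C := by
  show TuringReducible (chi (oplus A.carrier B.carrier)) (chi C.carrier)
  have hA' : Nat.RecursiveIn {chi C.carrier} (chi A.carrier) := RecursiveIn.iff_nat.mp hA
  have hB' : Nat.RecursiveIn {chi C.carrier} (chi B.carrier) := RecursiveIn.iff_nat.mp hB
  rw [TuringReducible, RecursiveIn.iff_nat]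
  have hh : Nat.RecursiveIn {chi C.carrier} (fun n : ℕ => ((n / 2 : ℕ) : Part ℕ)) :=
    Nat.Primrec.recursiveIn (Primrec.nat_iff.mp
      (Primrec.nat_div.comp Primrec.id (Primrec.const 2)))
  have hid : Nat.RecursiveIn {chi C.carrier} (fun n : ℕ => ((n : ℕ) : Part ℕ)) :=
    Nat.Primrec.recursiveIn (Primrec.nat_iff.mp Primrec.id)
  have hsel : Nat.RecursiveIn {chi C.carrier} (fun t : ℕ =>
      (((if (Nat.unpair t).1 % 2 = 0 then (Nat.unpair (Nat.unpair t).2).1
        else (Nat.unpair (Nat.unpair t).2).2) : ℕ) : Part ℕ)) := by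
    refine Nat.Primrec.recursiveIn (Primrec.nat_iff.mp ?_)
    have hu : Primrec Nat.unpair := Primrec.unpair
    refine Primrec.ite ?_ ?_ ?_
    · exact Primrec.eq.comp (Primrec.nat_mod.comp (Primrec.fst.comp hu) (Primrec.const 2))
        (Primrec.const 0)
    · exact Primrec.fst.comp (hu.comp (Primrec.snd.comp hu))
    · exact Primrec.snd.comp (hu.comp (Primrec.snd.comp hu))
  have h1 := Nat.RecursiveIn.comp hA' hh
  have h2 := Nat.RecursiveIn.comp hB' hh
  have h3 := Nat.RecursiveIn.pair hid (Nat.RecursiveIn.pair h1 h2)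
  refine (Nat.RecursiveIn.comp hsel h3).of_eq fun n => ?_
  have e : ∀ X : Set ℕ, (((n / 2 : ℕ) : Part ℕ) >>= chi X) = chi X (n / 2) := fun X =>
    Part.bind_some (n / 2) (chi X)
  obtain ⟨va, hva⟩ := chi_exists A.carrier (n / 2)
  obtain ⟨vb, hvb⟩ := chi_exists B.carrier (n / 2)
  rw [e, e, hva, hvb]
  rcases Nat.mod_two_eq_zero_or_one n with h0 | h1
  · have e1 : chi (oplus A.carrier B.carrier) n = chi A.carrier (n / 2) :=
      chi_congr (by simp [oplus, h0])
    rw [e1, hva]
    simp [h0, Seq.seq]
  · have e1 : chi (oplus A.carrier B.carrier) n = chi B.carrier (n / 2) :=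
      chi_congr (by simp [oplus, h1])
    rw [e1, hvb]
    simp [h1, Seq.seq]

/-- The empty set, the least c.e. set for Turing reducibility. -/
def emptyCE : CESet :=
  ⟨∅, (Partrec.none : Partrec fun _ : ℕ => (Part.none : Part Unit)).of_eq fun n => by
    refine (Part.assert_neg (f := fun _ => Part.some ()) ?_).symm
    exact Set.notMem_empty n⟩

lemma emptyCE_le (A : CESet) : emptyCE ≤ A := by
  show TuringReducible (chi emptyCE.carrier) (chi A.carrier)
  rw [TuringReducible, RecursiveIn.iff_nat]
  have h2 : Nat.RecursiveIn {chi A.carrier} (fun _ : ℕ => ((0 : ℕ) : Part ℕ)) :=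
    Nat.Primrec.recursiveIn Nat.Primrec.zero
  exact h2.of_eq fun n => (chi_neg (Set.notMem_empty n)).symm

/-- `R` is an upper semilattice: the join of the degrees of `A` and `B` is the degree of
`A ⊕ B`. -/
instance : SemilatticeSup R where
  sup := Quotient.map₂ join (fun a b hab c d hcd =>
    ⟨join_le (hab.1.trans (le_join_left b d)) (hcd.1.trans (le_join_right b d)),
      join_le (hab.2.trans (le_join_left a c)) (hcd.2.trans (le_join_right a c))⟩)
  le_sup_left a b := by
    induction a using Quotient.inductionOn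
    induction b using Quotient.inductionOn
    exact le_join_left _ _
  le_sup_right a b := by
    induction a using Quotient.inductionOn
    induction b using Quotient.inductionOn
    exact le_join_right _ _
  sup_le a b c := by
    induction a using Quotient.inductionOn
    induction b using Quotient.inductionOn
    induction c using Quotient.inductionOn
    exact fun h h' => join_le h h'

/-- The least c.e. degree `0`. -/
instance : OrderBot R where
  bot := toAntisymmetrization _ emptyCE
  bot_le a := by
    induction a using Quotient.inductionOn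
    exact emptyCE_le _

lemma mem_of_mem_assert {p : Prop} {u : Unit} (h : u ∈ Part.assert p fun _ => Part.some ()) : p :=
  (Part.mem_assert_iff.mp h).1

instance : Countable CESet := by
  have hcode : ∀ A : CESet, ∃ c : Nat.Partrec.Code, ∀ n, (c.eval n).Dom ↔ n ∈ A.carrier := by
    intro A
    have h := A.re
    have h' : Partrec fun n : ℕ => (Part.assert (n ∈ A.carrier) fun _ => Part.some ()).map
        (fun _ => (0 : ℕ)) := h.map (Computable.const 0).to₂
    obtain ⟨c, hc⟩ := Nat.Partrec.Code.exists_code.mp (Partrec.nat_iff.mp h')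
    refine ⟨c, fun n => ?_⟩
    rw [hc]
    constructor
    · rintro ⟨hp, -⟩; exact hp
    · intro hp; exact ⟨hp, trivial⟩
  choose f hf using hcode
  have hinj : Function.Injective f := by
    intro A B hAB
    have : A.carrier = B.carrier := by
      ext n; rw [← hf A, ← hf B, hAB]
    cases A; cases B; simp_all
  exact hinj.countable

instance : Countable R := Quotient.countable

end Pool.Agent.IDL28
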