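import Mathlib

/-!
# Pulling back joins from ideals

`L` is a finite lattice, `U` a join-semilattice with least element, `φ : L → Order.Ideal U`
preserves joins. If every element of `L` is grounded with respect to a set `S` on which `φ` is
principal, then there are join preserving maps `g : L → U` with `g a ∈ φ a`, above any prescribed
elements of the ideals.
-/

set_option autoImplicit false

open Order

namespace Pool.Agent.IDL28

universe u v

/-- `Grounded S p`: either `p ∈ S`, or every nontrivial covering `p ≤ a ⊔ b` can be refined to a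
finite covering by grounded elements, each below `a` or below `b`. -/
inductive Grounded {L : Type u} [Lattice L] [OrderBot L] (S : Set L) : L → Prop
  | base (p : L) (h : p ∈ S) : Grounded S p
  | step (p : L) (C : L → L → Finset L)
      (hcov : ∀ a b, p ≤ a ⊔ b → ¬ p ≤ a → ¬ p ≤ b → p ≤ (C a b).sup id)
      (href : ∀ a b, ∀ c ∈ C a b, c ≤ a ∨ c ≤ b)
      (hg : ∀ a b, ∀ c ∈ C a b, Grounded S c) : Grounded S p

section core

variable {L : Type u} [Lattice L] [OrderBot L] [Finite L]
variable {U : Type v} [SemilatticeSup U] [OrderBot U]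

/-- The map generated by values `z`: the join of the values at the elements below `a`. -/
noncomputable def gen (z : L → U) (a : L) : U :=
  (Set.Finite.toFinset (Set.toFinite {r : L | r ≤ a})).sup z

omit [OrderBot L] in
lemma le_gen (z : L → U) {r a : L} (h : r ≤ a) : z r ≤ gen z a :=
  Finset.le_sup (f := z) (by simpa using h)

omit [OrderBot L] in
lemma gen_le (z : L → U) {a : L} {u : U} (h : ∀ r ≤ a, z r ≤ u) : gen z a ≤ u :=
  Finset.sup_le (fun r hr => h r (by simpa using hr))

omit [OrderBot L] in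
lemma gen_mono (z : L → U) {a b : L} (h : a ≤ b) : gen z a ≤ gen z b :=
  gen_le z (fun _ hr => le_gen z (hr.trans h))

omit [OrderBot L] in
lemma gen_mono_left {z z' : L → U} (h : ∀ r, z r ≤ z' r) (a : L) : gen z a ≤ gen z' a :=
  gen_le z (fun _ hr => (h _).trans (le_gen z' hr))

/-- Closed at `q`: the value at `q` is covered whenever `q` is. -/
def ClosedAt (z : L → U) (q : L) : Prop :=
  ∀ a b, q ≤ a ⊔ b → z q ≤ gen z a ⊔ gen z b

omit [OrderBot L] in
lemma ClosedAt.sup {z z' : L → U} {q : L} (h : ClosedAt z q) (h' : ClosedAt z' q) :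
    ClosedAt (fun r => z r ⊔ z' r) q := by
  intro a b hq
  refine sup_le ((h a b hq).trans ?_) ((h' a b hq).trans ?_)
  · exact sup_le_sup (gen_mono_left (fun _ => le_sup_left) _) (gen_mono_left (fun _ => le_sup_left) _)
  · exact sup_le_sup (gen_mono_left (fun _ => le_sup_right) _)
      (gen_mono_left (fun _ => le_sup_right) _)

omit [OrderBot L] in
lemma closedAt_finset_sup {ι : Type*} (s : Finset ι) (z : ι → L → U) {q : L}
    (h : ∀ i ∈ s, ClosedAt (z i) q) : ClosedAt (fun r => s.sup (fun i => z i r)) q := by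
  intro a b hq
  refine Finset.sup_le (fun i hi => (h i hi a b hq).trans ?_)
  exact sup_le_sup (gen_mono_left (fun r => Finset.le_sup (f := fun i => z i r) hi) _)
    (gen_mono_left (fun r => Finset.le_sup (f := fun i => z i r) hi) _)

variable (φ : L → Ideal U) (S : Set L)

/-- A family of values in the ideals, closed at the elements outside `S`. -/
structure Semi (z : L → U) : Prop where
  mem : ∀ q, z q ∈ φ q
  closed : ∀ q, q ∉ S → ClosedAt z q

omit [OrderBot L] [Finite L] in
lemma sup_mem_ideal {I : Ideal U} {x y : U} (hx : x ∈ I) (hy : y ∈ I) : x ⊔ y ∈ I :=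
  Ideal.sup_mem hx hy

omit [OrderBot L] [Finite L] in
lemma finset_sup_mem {ι : Type*} (I : Ideal U) (s : Finset ι) (f : ι → U)
    (h : ∀ i ∈ s, f i ∈ I) : s.sup f ∈ I := by
  classical
  induction s using Finset.induction_on with
  | empty => simpa using I.bot_mem
  | insert i s hi ih =>
    rw [Finset.sup_insert]
    exact Ideal.sup_mem (h i (Finset.mem_insert_self _ _))
      (ih (fun j hj => h j (Finset.mem_insert_of_mem hj)))

lemma Semi.sup {z z' : L → U} (h : Semi φ S z) (h' : Semi φ S z') :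
    Semi φ S (fun r => z r ⊔ z' r) :=
  ⟨fun q => Ideal.sup_mem (h.mem q) (h'.mem q), fun q hq => (h.closed q hq).sup (h'.closed q hq)⟩

lemma semi_finset_sup {ι : Type*} (s : Finset ι) (z : ι → L → U)
    (h : ∀ i ∈ s, Semi φ S (z i)) : Semi φ S (fun r => s.sup (fun i => z i r)) :=
  ⟨fun q => finset_sup_mem _ _ _ (fun i hi => (h i hi).mem q),
    fun q hq => closedAt_finset_sup s z (fun i hi => (h i hi).closed q hq)⟩

variable {φ S}

omit [Finite L] in
/-- An element of `φ (∨ C)` is bounded by a join of elements of the `φ c`. -/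
lemma exists_cover (hsup : ∀ a b, φ (a ⊔ b) = φ a ⊔ φ b) (C : Finset L) :
    ∀ x ∈ φ (C.sup id), ∃ y : L → U, (∀ c, y c ∈ φ c) ∧
      x ≤ C.sup y ⊔ y ⊥ := by
  classical
  induction C using Finset.induction_on with
  | empty =>
    intro x hx
    refine ⟨fun c => if c = ⊥ then x else ⊥, ?_, ?_⟩
    · intro c
      by_cases hc : c = ⊥
      · subst hc; simpa using hx
      · simpa [hc] using (φ c).bot_mem
    · simp
  | insert c C hc ih =>
    intro x hx
    rw [Finset.sup_insert, hsup, Ideal.mem_sup] at hx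
    obtain ⟨u, hu, v, hv, hxuv⟩ := hx
    obtain ⟨y, hy, hyv⟩ := ih v hv
    refine ⟨fun d => if d = c then y d ⊔ u else y d, ?_, ?_⟩
    · intro d
      by_cases hd : d = c
      · subst hd; simpa using Ideal.sup_mem (hy d) (by simpa using hu)
      · simpa [hd] using hy d
    · have hmono : ∀ d, y d ≤ (fun d => if d = c then y d ⊔ u else y d) d := by
        intro d; by_cases hd : d = c <;> simp [hd]
      have h1 : v ≤ C.sup (fun d => if d = c then y d ⊔ u else y d) ⊔
          (fun d => if d = c then y d ⊔ u else y d) ⊥ :=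
        hyv.trans (sup_le_sup (Finset.sup_mono_fun (fun d _ => hmono d)) (hmono ⊥))
      refine hxuv.trans (sup_le ?_ (h1.trans ?_))
      · refine le_sup_of_le_left ?_
        rw [Finset.sup_insert]
        refine le_sup_of_le_left ?_
        simp
      · exact sup_le_sup (Finset.sup_mono (Finset.subset_insert _ _)) le_rfl

omit [Finite L] in
lemma phi_mono (hsup : ∀ a b, φ (a ⊔ b) = φ a ⊔ φ b) {a b : L} (h : a ≤ b) : φ a ≤ φ b := by
  have h1 := hsup a b
  rw [sup_eq_right.mpr h] at h1
  rw [h1]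
  exact le_sup_left

/-- The family with the value `u` at `p` and `⊥` elsewhere. -/
noncomputable def one (p : L) (u : U) (q : L) : U :=
  haveI := Classical.dec (q = p)
  if q = p then u else ⊥

omit [Lattice L] [OrderBot L] [Finite L] in
lemma one_self (p : L) (u : U) : one p u p = u := by
  classical
  simp [one]

omit [Lattice L] [OrderBot L] [Finite L] in
lemma one_ne {p q : L} (u : U) (h : q ≠ p) : one p u q = ⊥ := by
  classical
  simp [one, h]

omit [OrderBot L] [Finite L] in
lemma one_mem {p : L} {u : U} (h : u ∈ φ p) (q : L) : one p u q ∈ φ q := by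
  by_cases hq : q = p
  · subst hq; rwa [one_self]
  · rw [one_ne u hq]; exact (φ q).bot_mem

lemma semi_one_bot {u : U} (h : u ∈ φ (⊥ : L)) : Semi φ S (one (⊥ : L) u) := by
  refine ⟨one_mem h, fun q _ a b _ => ?_⟩
  by_cases hq : q = ⊥
  · subst hq
    exact le_sup_of_le_left (le_gen _ bot_le)
  · rw [one_ne u hq]; exact bot_le

lemma semi_bot : Semi φ S (fun _ => (⊥ : U)) :=
  ⟨fun q => (φ q).bot_mem, fun _ _ _ _ _ => bot_le⟩

lemma le_gen_sup_of_cover {z y : L → U} {C : Finset L} {a b : L} {x : U}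
    (hx : x ≤ C.sup y ⊔ y ⊥) (href : ∀ c ∈ C, c ≤ a ∨ c ≤ b)
    (hy : ∀ c ∈ C, y c ≤ z c) (hb : y ⊥ ≤ z ⊥) : x ≤ gen z a ⊔ gen z b := by
  refine hx.trans (sup_le (Finset.sup_le fun c hc => ?_) ?_)
  · rcases href c hc with h | h
    · exact le_sup_of_le_left ((hy c hc).trans (le_gen z h))
    · exact le_sup_of_le_right ((hy c hc).trans (le_gen z h))
  · exact le_sup_of_le_left (hb.trans (le_gen z bot_le))

/-- Every element of `φ p`, `p` grounded, is the value at `p` of a family closed outside `S`. -/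
lemma exists_semi (hsup : ∀ a b, φ (a ⊔ b) = φ a ⊔ φ b) {p : L} (hp : Grounded S p) :
    ∀ x ∈ φ p, ∃ z : L → U, Semi φ S z ∧ x ≤ z p := by
  classical
  have := Fintype.ofFinite L
  induction hp with
  | base p h =>
    intro x hx
    refine ⟨one p x, ⟨one_mem hx, fun q hq a b _ => ?_⟩, (one_self p x).ge⟩
    have hqp : q ≠ p := fun e => hq (e ▸ h)
    rw [one_ne x hqp]; exact bot_le
  | step p C hcov href hg ih =>
    intro x hx
    have key : ∀ ab : L × L, ∃ w : L → U, Semi φ S w ∧
        (p ≤ ab.1 ⊔ ab.2 → ¬ p ≤ ab.1 → ¬ p ≤ ab.2 → x ≤ gen w ab.1 ⊔ gen w ab.2) := by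
      rintro ⟨a, b⟩
      by_cases hn : p ≤ a ⊔ b ∧ ¬ p ≤ a ∧ ¬ p ≤ b
      · have hx' : x ∈ φ ((C a b).sup id) := phi_mono hsup (hcov a b hn.1 hn.2.1 hn.2.2) hx
        obtain ⟨y, hy, hxy⟩ := exists_cover hsup (C a b) x hx'
        choose! zc hzc using fun c (hc : c ∈ C a b) => ih a b c hc (y c) (hy c)
        refine ⟨fun r => (C a b).sup (fun c => zc c r) ⊔ one (⊥ : L) (y ⊥) r,
          (semi_finset_sup φ S (C a b) zc (fun c hc => (hzc c hc).1)).sup φ S
            (semi_one_bot (hy ⊥)), fun _ _ _ => ?_⟩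
        refine le_gen_sup_of_cover hxy (href a b) (fun c hc => ?_) ?_
        · exact le_sup_of_le_left ((hzc c hc).2.trans
            (Finset.le_sup (f := fun d => zc d c) hc))
        · exact le_sup_of_le_right (one_self (⊥ : L) (y ⊥)).ge
      · refine ⟨fun _ => ⊥, semi_bot, fun h1 h2 h3 => absurd ⟨h1, h2, h3⟩ hn⟩
    choose w hw hwx using key
    have hW : Semi φ S (fun r => (Finset.univ : Finset (L × L)).sup (fun i => w i r)) :=
      semi_finset_sup φ S _ _ (fun i _ => hw i)
    set W : L → U := fun r => (Finset.univ : Finset (L × L)).sup (fun i => w i r) with hWdef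
    have hwW : ∀ i r, w i r ≤ W r := fun i r =>
      Finset.le_sup (f := fun i => w i r) (Finset.mem_univ i)
    refine ⟨fun r => one p x r ⊔ W r, ⟨fun q => Ideal.sup_mem (one_mem hx q) (hW.mem q), ?_⟩,
      le_sup_of_le_left (one_self p x).ge⟩
    intro q hq a b hqab
    have hWz : ∀ r, W r ≤ (fun r => one p x r ⊔ W r) r := fun r => le_sup_right
    have hrest : W q ≤ gen (fun r => one p x r ⊔ W r) a ⊔ gen (fun r => one p x r ⊔ W r) b :=
      (hW.closed q hq a b hqab).trans (sup_le_sup (gen_mono_left hWz a) (gen_mono_left hWz b))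
    refine sup_le ?_ hrest
    by_cases hqp : q = p
    · subst hqp
      rw [one_self]
      have hxz : x ≤ (fun r => one q x r ⊔ W r) q := le_sup_of_le_left (one_self q x).ge
      by_cases h1 : q ≤ a
      · exact le_sup_of_le_left (hxz.trans (le_gen (fun r => one q x r ⊔ W r) h1))
      by_cases h2 : q ≤ b
      · exact le_sup_of_le_right (hxz.trans (le_gen (fun r => one q x r ⊔ W r) h2))
      refine (hwx (a, b) hqab h1 h2).trans (sup_le_sup ?_ ?_)
      · exact gen_mono_left (fun r => (hwW (a, b) r).trans (hWz r)) a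
      · exact gen_mono_left (fun r => (hwW (a, b) r).trans (hWz r)) b
    · rw [one_ne x hqp]; exact bot_le

/-- Closed families above given requests. -/
lemma exists_closed (hsup : ∀ a b, φ (a ⊔ b) = φ a ⊔ φ b) (w : L → U)
    (hw : ∀ s ∈ S, φ s = Ideal.principal (w s)) (hG : ∀ p, Grounded S p) (y : L → U)
    (hy : ∀ a, y a ∈ φ a) :
    ∃ z : L → U, (∀ q, z q ∈ φ q) ∧ (∀ q, ClosedAt z q) ∧ ∀ a, y a ≤ z a := by
  classical
  have := Fintype.ofFinite L
  have h1 : ∀ a, ∃ z : L → U, Semi φ S z ∧ y a ≤ z a := fun a =>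
    exists_semi hsup (hG a) (y a) (hy a)
  choose z1 hz1 hz1y using h1
  have h2 : ∀ t : L × L × L, ∃ z : L → U, Semi φ S z ∧
      (t.1 ∈ S → t.1 ≤ t.2.1 ⊔ t.2.2 → w t.1 ≤ gen z t.2.1 ⊔ gen z t.2.2) := by
    rintro ⟨s, a, b⟩
    by_cases hn : s ∈ S ∧ s ≤ a ⊔ b
    · have hm : w s ∈ φ s := by rw [hw s hn.1]; exact Ideal.mem_principal_self
      have hm' : w s ∈ φ a ⊔ φ b := by rw [← hsup]; exact phi_mono hsup hn.2 hm
      obtain ⟨u, hu, v, hv, huv⟩ := Ideal.mem_sup.mp hm'
      obtain ⟨za, hza, hua⟩ := exists_semi hsup (hG a) u hu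
      obtain ⟨zb, hzb, hvb⟩ := exists_semi hsup (hG b) v hv
      refine ⟨fun r => za r ⊔ zb r, hza.sup φ S hzb, fun _ _ => huv.trans (sup_le_sup ?_ ?_)⟩
      · exact (hua.trans le_sup_left).trans (le_gen (fun r => za r ⊔ zb r) le_rfl)
      · exact (hvb.trans le_sup_right).trans (le_gen (fun r => za r ⊔ zb r) le_rfl)
    · exact ⟨fun _ => ⊥, semi_bot, fun h h' => absurd ⟨h, h'⟩ hn⟩
  choose z2 hz2 hz2w using h2
  set A : L → U := fun r => (Finset.univ : Finset L).sup (fun i => z1 i r) with hA
  set B : L → U := fun r => (Finset.univ : Finset (L × L × L)).sup (fun i => z2 i r) with hB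
  have hAS : Semi φ S A := semi_finset_sup φ S _ _ (fun i _ => hz1 i)
  have hBS : Semi φ S B := semi_finset_sup φ S _ _ (fun i _ => hz2 i)
  have hABS := hAS.sup φ S hBS
  set W : L → U := fun r => if r ∈ S then w r else ⊥ with hWd
  have hWm : ∀ q, W q ∈ φ q := by
    intro q
    by_cases hq : q ∈ S
    · simp only [hWd, hq, if_true]; rw [hw q hq]; exact Ideal.mem_principal_self
    · simp only [hWd, hq, if_false]; exact (φ q).bot_mem
  refine ⟨fun r => (A r ⊔ B r) ⊔ W r, fun q => Ideal.sup_mem (hABS.mem q) (hWm q), ?_, ?_⟩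
  · intro q a b hq
    by_cases hqS : q ∈ S
    · have hle : (A q ⊔ B q) ⊔ W q ≤ w q := by
        have hm : (A q ⊔ B q) ⊔ W q ∈ φ q := Ideal.sup_mem (hABS.mem q) (hWm q)
        rw [hw q hqS] at hm
        exact Ideal.mem_principal.mp hm
      refine hle.trans ((hz2w (q, a, b) hqS hq).trans (sup_le_sup ?_ ?_))
      · exact gen_mono_left (fun r => le_sup_of_le_left (le_sup_of_le_right
          (Finset.le_sup (f := fun i => z2 i r) (Finset.mem_univ (q, a, b))))) a
      · exact gen_mono_left (fun r => le_sup_of_le_left (le_sup_of_le_right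
          (Finset.le_sup (f := fun i => z2 i r) (Finset.mem_univ (q, a, b))))) b
    · have hW0 : W q = ⊥ := by simp [hWd, hqS]
      show (A q ⊔ B q) ⊔ W q ≤ _
      rw [hW0, sup_bot_eq]
      refine (hABS.closed q hqS a b hq).trans (sup_le_sup ?_ ?_)
      · exact gen_mono_left (fun r => le_sup_left) a
      · exact gen_mono_left (fun r => le_sup_left) b
  · intro a
    exact le_sup_of_le_left (le_sup_of_le_left ((hz1y a).trans
      (Finset.le_sup (f := fun i => z1 i a) (Finset.mem_univ a))))

/-- **Pull-back lemma.** If `φ` is principal on `S` and all elements are grounded over `S`, there is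
a join preserving `g : L → U` with `y a ≤ g a ∈ φ a` for prescribed `y a ∈ φ a`. -/
theorem exists_pullback (hsup : ∀ a b, φ (a ⊔ b) = φ a ⊔ φ b) (w : L → U)
    (hw : ∀ s ∈ S, φ s = Ideal.principal (w s)) (hG : ∀ p, Grounded S p) (y : L → U)
    (hy : ∀ a, y a ∈ φ a) :
    ∃ g : L → U, (∀ a b, g (a ⊔ b) = g a ⊔ g b) ∧ (∀ a, g a ∈ φ a) ∧ (∀ a, y a ≤ g a) := by
  obtain ⟨z, hz, hc, hyz⟩ := exists_closed hsup w hw hG y hy
  refine ⟨gen z, fun a b => le_antisymm ?_ ?_, fun a => ?_, fun a => (hyz a).trans (le_gen z le_rfl)⟩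
  · exact gen_le z (fun r hr => hc r a b hr)
  · exact sup_le (gen_mono z le_sup_left) (gen_mono z le_sup_right)
  · refine finset_sup_mem _ _ _ (fun r hr => ?_)
    have hra : r ≤ a := by simpa using hr
    exact phi_mono hsup hra (hz r)

end core

end Pool.Agent.IDL28
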