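import Mathlib
import Pool.Agent.IDL28.Core
import Pool.Agent.IDL28.CE

/-!
# Embeddings into the c.e. degrees and into their ideals

Definitions of the two kinds of embeddings, and the two theorems.
-/

set_option autoImplicit false

open Order

namespace Pool.Agent.IDL28

/-- `φ` is a lattice embedding of `L` into the lattice of ideals of the c.e. degrees. -/
structure EmbedsIdeals {L : Type} [Lattice L] (φ : L → Ideal R) : Prop where
  inj : Function.Injective φ
  sup : ∀ a b, φ (a ⊔ b) = φ a ⊔ φ b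
  inf : ∀ a b, φ (a ⊓ b) = φ a ⊓ φ b

/-- `f` is an embedding of `L` into the c.e. degrees: injective, join preserving, with
`f (a ⊓ b)` the meet of `f a` and `f b` in `R`, and `f ⊥` the degree `0`. -/
structure EmbedsDegrees {L : Type} [Lattice L] [OrderBot L] (f : L → R) : Prop where
  inj : Function.Injective f
  sup : ∀ a b, f (a ⊔ b) = f a ⊔ f b
  inf : ∀ a b, IsGLB {f a, f b} (f (a ⊓ b))
  bot : f ⊥ = ⊥

/-- The set of the elements of `L` whose image is a principal ideal. -/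
def principalSet {L : Type} (φ : L → Ideal R) : Set L := {s | ∃ w : R, φ s = Ideal.principal w}

/-- `L` is lower bounded: all its elements are grounded over the empty set. -/
def LowerBounded (L : Type) [Lattice L] [OrderBot L] : Prop := ∀ p : L, Grounded ∅ p

lemma Grounded.mono {L : Type*} [Lattice L] [OrderBot L] {S T : Set L} (h : S ⊆ T) {p : L}
    (hp : Grounded S p) : Grounded T p := by
  induction hp with
  | base p hp => exact .base p (h hp)
  | step p C hcov href _ ih => exact .step p C hcov href ih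

section

variable {L : Type} [Lattice L] [OrderBot L] [Finite L]

omit [OrderBot L] [Finite L] in
lemma EmbedsIdeals.le_iff {φ : L → Ideal R} (h : EmbedsIdeals φ) {a b : L} :
    φ a ≤ φ b ↔ a ≤ b := by
  constructor
  · intro hab
    have h1 : φ (a ⊔ b) = φ b := by rw [h.sup]; exact sup_eq_right.mpr hab
    exact sup_eq_right.mp (h.inj h1)
  · intro hab
    have h1 := h.sup a b
    rw [sup_eq_right.mpr hab] at h1
    rw [h1]; exact le_sup_left

/-- Elements separating the ideals of an embedding. -/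
lemma exists_sep {φ : L → Ideal R} (h : EmbedsIdeals φ) :
    ∃ y : L → R, (∀ a, y a ∈ φ a) ∧ ∀ a b, y a ∈ φ b → a ≤ b := by
  classical
  have := Fintype.ofFinite L
  have h1 : ∀ ab : L × L, ∃ u ∈ φ ab.1, u ∈ φ ab.2 → ab.1 ≤ ab.2 := by
    rintro ⟨a, b⟩
    by_cases hab : a ≤ b
    · exact ⟨⊥, (φ a).bot_mem, fun _ => hab⟩
    · have h2 : ¬ φ a ≤ φ b := fun h' => hab (h.le_iff.mp h')
      obtain ⟨u, hu, hu'⟩ := Set.not_subset.mp h2
      exact ⟨u, hu, fun h' => absurd h' hu'⟩
  choose u hu huab using h1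
  refine ⟨fun a => (Finset.univ : Finset L).sup (fun b => u (a, b)),
    fun a => finset_sup_mem _ _ _ (fun b _ => hu (a, b)), fun a b hab => ?_⟩
  refine huab (a, b) ((φ b).lower ?_ hab)
  exact Finset.le_sup (f := fun b => u (a, b)) (Finset.mem_univ b)

omit [Finite L] in
lemma embedsIdeals_of_degrees {f : L → R} (h : EmbedsDegrees f) :
    EmbedsIdeals (fun a => Ideal.principal (f a)) := by
  refine ⟨fun a b hab => h.inj ?_, fun a b => ?_, fun a b => ?_⟩
  · have h1 : f a ∈ Ideal.principal (f b) := by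
      rw [← hab]; exact Ideal.mem_principal_self
    have h2 : f b ∈ Ideal.principal (f a) := by
      rw [hab]; exact Ideal.mem_principal_self
    exact le_antisymm (Ideal.mem_principal.mp h1) (Ideal.mem_principal.mp h2)
  · ext u
    simp only [h.sup, SetLike.mem_coe, Ideal.mem_principal, Ideal.mem_sup]
    exact ⟨fun hu => ⟨f a, le_rfl, f b, le_rfl, hu⟩,
      fun ⟨i, hi, j, hj, hu⟩ => hu.trans (sup_le_sup hi hj)⟩
  · ext u
    simp only [SetLike.mem_coe, Ideal.mem_principal, Ideal.mem_inf]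
    constructor
    · intro hu
      exact ⟨hu.trans ((h.inf a b).1 (by simp)), hu.trans ((h.inf a b).1 (by simp))⟩
    · rintro ⟨ha, hb⟩
      refine (h.inf a b).2 ?_
      intro v hv
      rcases hv with rfl | hv
      · exact ha
      · rw [Set.mem_singleton_iff] at hv; rw [hv]; exact hb

/-- An embedding into the ideals which is principal at the proper meets and grounded over its
principal elements gives an embedding into the degrees. -/
theorem exists_embedsDegrees {φ : L → Ideal R} (h : EmbedsIdeals φ)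
    (hbot : φ ⊥ = Ideal.principal ⊥)
    (hmeet : ∀ a b, ¬ a ≤ b → ¬ b ≤ a → a ⊓ b ∈ principalSet φ)
    (hG : ∀ p, Grounded (principalSet φ) p) :
    ∃ f : L → R, EmbedsDegrees f ∧ ∀ a, f a ∈ φ a := by
  classical
  obtain ⟨y, hy, hsep⟩ := exists_sep h
  have hw : ∀ s : L, ∃ w : R, s ∈ principalSet φ → φ s = Ideal.principal w := by
    intro s
    by_cases hs : s ∈ principalSet φ
    · obtain ⟨w, hw⟩ := hs
      exact ⟨w, fun _ => hw⟩
    · exact ⟨⊥, fun h' => absurd h' hs⟩
  choose w hw using hw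
  have hwm : ∀ s, (if s ∈ principalSet φ then w s else ⊥) ∈ φ s := by
    intro s
    by_cases hs : s ∈ principalSet φ
    · rw [if_pos hs, hw s hs]; exact Ideal.mem_principal_self
    · rw [if_neg hs]; exact (φ s).bot_mem
  obtain ⟨g, hg1, hg2, hg3⟩ := exists_pullback (S := principalSet φ) h.sup w hw hG
    (fun a => y a ⊔ if a ∈ principalSet φ then w a else ⊥)
    (fun a => Ideal.sup_mem (hy a) (hwm a))
  have hmono : ∀ {a b : L}, a ≤ b → g a ≤ g b := by
    intro a b hab
    have h1 := hg1 a b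
    rw [sup_eq_right.mpr hab] at h1
    rw [h1]; exact le_sup_left
  have hle : ∀ {a b : L}, g a ≤ g b → a ≤ b := fun {a b} hab =>
    hsep a b ((φ b).lower ((le_sup_left.trans (hg3 a)).trans hab) (hg2 b))
  refine ⟨g, ⟨fun a b hab => le_antisymm (hle hab.le) (hle hab.ge), hg1, fun a b => ?_, ?_⟩, hg2⟩
  · constructor
    · rintro v (rfl | hv)
      · exact hmono inf_le_left
      · rw [Set.mem_singleton_iff] at hv; rw [hv]; exact hmono inf_le_right
    · intro u hu
      have hua : u ≤ g a := hu (by simp)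
      have hub : u ≤ g b := hu (by simp)
      by_cases hab : a ≤ b
      · rw [inf_eq_left.mpr hab]; exact hua
      by_cases hba : b ≤ a
      · rw [inf_eq_right.mpr hba]; exact hub
      have hs := hmeet a b hab hba
      have hum : u ∈ φ (a ⊓ b) := by
        have h1 : u ∈ φ a := (φ a).lower hua (hg2 a)
        have h2 : u ∈ φ b := (φ b).lower hub (hg2 b)
        rw [h.inf]
        exact ⟨h1, h2⟩
      rw [hw _ hs] at hum
      have h3 := hg3 (a ⊓ b)
      rw [if_pos hs] at h3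
      exact (Ideal.mem_principal.mp hum).trans (le_sup_right.trans h3)
  · have h1 := hg2 ⊥
    rw [hbot] at h1
    exact le_antisymm (Ideal.mem_principal.mp h1) bot_le

/-- The chain theorem, forward direction. -/
theorem exists_chain (hL : LowerBounded L) {φ : L → Ideal R} (h : EmbedsIdeals φ) :
    ∃ g : ℕ → L → R, (∀ n a b, g n (a ⊔ b) = g n a ⊔ g n b) ∧ (∀ n a, g n a ≤ g (n + 1) a) ∧
      (∀ m n a b, g m a ≤ g n b → a ≤ b) ∧ (∀ a, ∀ u : R, u ∈ φ a ↔ ∃ n, u ≤ g n a) := by
  classical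
  obtain ⟨y, hy, hsep⟩ := exists_sep h
  have henum : ∀ a : L, ∃ e : ℕ → R, (∀ n, e n ∈ φ a) ∧ ∀ u ∈ φ a, ∃ n, e n = u := by
    intro a
    have : Nonempty (φ a : Set R) := ⟨⟨⊥, (φ a).bot_mem⟩⟩
    obtain ⟨e, he⟩ := exists_surjective_nat (φ a : Set R)
    exact ⟨fun n => (e n).1, fun n => (e n).2, fun u hu => by
      obtain ⟨n, hn⟩ := he ⟨u, hu⟩
      refine ⟨n, ?_⟩
      show (e n).1 = u
      rw [hn]⟩
  choose e he heu using henum
  have step : ∀ y : L → R, (∀ a, y a ∈ φ a) → ∃ g : L → R,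
      (∀ a b, g (a ⊔ b) = g a ⊔ g b) ∧ (∀ a, g a ∈ φ a) ∧ (∀ a, y a ≤ g a) := fun y hy =>
    exists_pullback (S := (∅ : Set L)) h.sup (fun _ => ⊥)
      (fun s hs => absurd hs (Set.notMem_empty s)) hL y hy
  choose G hG1 hG2 hG3 using step
  let P : Type := {g : L → R // ∀ a, g a ∈ φ a}
  let seq : ℕ → P := fun n => Nat.rec ⟨G y hy, hG2 y hy⟩
    (fun n g => ⟨G (fun a => g.1 a ⊔ e a n) (fun a => Ideal.sup_mem (g.2 a) (he a n)),
      hG2 _ _⟩) n
  have hseqs : ∀ n, seq (n + 1) = ⟨G (fun a => (seq n).1 a ⊔ e a n)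
      (fun a => Ideal.sup_mem ((seq n).2 a) (he a n)), hG2 _ _⟩ := fun n => rfl
  have hsucc : ∀ n a, (seq n).1 a ⊔ e a n ≤ (seq (n + 1)).1 a := fun n a => by
    rw [hseqs]; exact hG3 _ (fun a => Ideal.sup_mem ((seq n).2 a) (he a n)) a
  have hmono0 : ∀ n a, (seq 0).1 a ≤ (seq n).1 a := by
    intro n a
    induction n with
    | zero => exact le_rfl
    | succ n ih => exact ih.trans (le_sup_left.trans (hsucc n a))
  refine ⟨fun n => (seq n).1, fun n a b => ?_, fun n a => le_sup_left.trans (hsucc n a),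
    fun m n a b hab => ?_, fun a u => ⟨fun hu => ?_, fun ⟨n, hn⟩ => (φ a).lower hn ((seq n).2 a)⟩⟩
  · cases n with
    | zero => exact hG1 y hy a b
    | succ n => exact hG1 _ (fun a => Ideal.sup_mem ((seq n).2 a) (he a n)) a b
  · refine hsep a b ((φ b).lower ?_ ((seq n).2 b))
    exact ((hG3 y hy a).trans (hmono0 m a)).trans hab
  · obtain ⟨n, hn⟩ := heu a u hu
    exact ⟨n + 1, hn ▸ le_sup_right.trans (hsucc n a)⟩

omit [OrderBot L] [Finite L] in
/-- The chain theorem, backward direction. -/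
theorem embedsIdeals_of_chain {g : ℕ → L → R} (h1 : ∀ n a b, g n (a ⊔ b) = g n a ⊔ g n b)
    (h2 : ∀ n a, g n a ≤ g (n + 1) a) (h3 : ∀ m n a b, g m a ≤ g n b → a ≤ b)
    (h4 : ∀ n a b u, u ≤ g n a → u ≤ g n b → ∃ m, u ≤ g m (a ⊓ b)) :
    ∃ φ : L → Ideal R, EmbedsIdeals φ ∧ ∀ a, ∀ u : R, u ∈ φ a ↔ ∃ n, u ≤ g n a := by
  have hmn : ∀ a, Monotone (fun n => g n a) := fun a => monotone_nat_of_le_succ (fun n => h2 n a)
  have hma : ∀ n {a b : L}, a ≤ b → g n a ≤ g n b := by
    intro n a b hab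
    have h := h1 n a b
    rw [sup_eq_right.mpr hab] at h
    rw [h]; exact le_sup_left
  let φ : L → Ideal R := fun a =>
    { carrier := {u | ∃ n, u ≤ g n a}
      lower' := fun u v hvu ⟨n, hn⟩ => ⟨n, hvu.trans hn⟩
      nonempty' := ⟨⊥, 0, bot_le⟩
      directed' := fun u ⟨n, hn⟩ v ⟨m, hm⟩ =>
        ⟨u ⊔ v, ⟨max n m, sup_le (hn.trans (hmn a (le_max_left n m)))
          (hm.trans (hmn a (le_max_right n m)))⟩, le_sup_left, le_sup_right⟩ }
  have hφ : ∀ a, ∀ u : R, u ∈ φ a ↔ ∃ n, u ≤ g n a := fun a u => Iff.rfl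
  refine ⟨φ, ⟨fun a b hab => ?_, fun a b => ?_, fun a b => ?_⟩, hφ⟩
  · have h5 : g 0 a ∈ φ b := by rw [← hab]; exact ⟨0, le_rfl⟩
    have h6 : g 0 b ∈ φ a := by rw [hab]; exact ⟨0, le_rfl⟩
    obtain ⟨n, hn⟩ := h5
    obtain ⟨m, hm⟩ := h6
    exact le_antisymm (h3 0 n a b hn) (h3 0 m b a hm)
  · ext u
    simp only [SetLike.mem_coe, Ideal.mem_sup, hφ]
    constructor
    · rintro ⟨n, hn⟩
      exact ⟨g n a, ⟨n, le_rfl⟩, g n b, ⟨n, le_rfl⟩, (h1 n a b) ▸ hn⟩
    · rintro ⟨i, ⟨n, hn⟩, j, ⟨m, hm⟩, hu⟩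
      refine ⟨max n m, hu.trans ?_⟩
      rw [h1]
      exact sup_le_sup (hn.trans (hmn a (le_max_left n m))) (hm.trans (hmn b (le_max_right n m)))
  · ext u
    simp only [SetLike.mem_coe, Ideal.mem_inf, hφ]
    constructor
    · rintro ⟨n, hn⟩
      exact ⟨⟨n, hn.trans (hma n inf_le_left)⟩, ⟨n, hn.trans (hma n inf_le_right)⟩⟩
    · rintro ⟨⟨n, hn⟩, ⟨m, hm⟩⟩
      exact h4 (max n m) a b u (hn.trans (hmn a (le_max_left n m)))
        (hm.trans (hmn b (le_max_right n m)))

end

end Pool.Agent.IDL28
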